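import Pool.Agent.Helper74.UB.Goals2

/-!
# Packet UB-TIME (MP_cd9ac2_co): the time bound
-/

namespace Pool.Agent.Helper65.UB

open Finset Helper28.VF Helper74.UB
open scoped Classical

theorem ev_succ {D V E F : Type} [Fintype D] [Fintype V] [Fintype E] [Fintype F]
    {M : PM D V E F} {A Q : ℕ → Finset V} {X : Finset V} {T : ℕ} (R : Route M A Q X T) (t : ℕ) :
    R.ev (t + 1) = R.ev t + if R.Ev t then 1 else 0 := by
  unfold Route.ev
  rw [Finset.range_add_one, Finset.filter_insert]
  by_cases h : R.Ev t
  · rw [if_pos h, if_pos h, Finset.card_insert_of_notMem]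
    simp
  · rw [if_neg h, if_neg h, add_zero]

/-- **TIME.** -/
theorem time : StmtTime := by
  intro D V E F _ _ _ _ M A Q T X R t
  induction t with
  | zero => intro _; omega
  | succ t ih =>
    intro ht
    have h1 := ih (by omega)
    have h2 := ev_succ R t
    rcases R.alt t (by omega) with h | h
    · rw [h2]
      have := h.2
      split_ifs <;> omega
    · have h3 : R.Ev t := h.1
      rw [if_pos h3] at h2
      have := h.2.1
      omega

end Pool.Agent.Helper65.UB
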